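import Pool.Agent.Helper51.PP.Spec

/-!
# Swarm PC (helper51), part DLT (helper85)
-/

set_option autoImplicit false

namespace Pool.Agent.Helper85.PC.DLT

open MeasureTheory ProbabilityTheory Filter Topology Pool.Agent.Helper51.PP
open scoped ENNReal BigOperators

theorem exp_lip (x y : ℝ) : ‖Complex.exp (Complex.I * (x : ℂ)) - Complex.exp (Complex.I * (y : ℂ))‖ ≤
    |x - y| := by
  have h1 : Complex.exp (Complex.I * (x : ℂ)) - Complex.exp (Complex.I * (y : ℂ)) =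
      Complex.exp (Complex.I * (y : ℂ)) * (Complex.exp (Complex.I * ((x - y : ℝ) : ℂ)) - 1) := by
    rw [mul_sub, ← Complex.exp_add, mul_one]
    congr 2
    push_cast
    ring
  rw [h1, norm_mul, mul_comm Complex.I (y : ℂ), Complex.norm_exp_ofReal_mul_I, one_mul]
  exact Real.norm_exp_I_mul_ofReal_sub_one_le

theorem main (hCOR : S_COR) (hMART : S_MART) (hEVF : S_EVF) (hDET : S_DET) (hLNK : S_LNK)
    (hGEO1 : S_GEO1) (hCONG : S_CONG) : S_DLT := by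
  intro d hd ω hω h0 K hK a m hm σ2 hσ2 hVf h ψ H G B hH hG hB h1 h2 h3
  haveI : NeZero d := ⟨by omega⟩
  have hrev : RevChain (nxO ω hω) revD := hGEO1 d ω hω
  obtain ⟨C, hC, hC'⟩ := hDET d hd ω hω h0 K hK
  obtain ⟨χ, hχ0, hχ, hlim⟩ := hCOR (nxO ω hω) revD hrev ⟨0, h0⟩ C hC (fun n hn => (hC' n hn).2)
    (fun x e => (∑ i, a i * (dirVec e i : ℝ)) * (gap ω x.1 e : ℝ) - m x e) ψ B hB h3
  obtain ⟨φ, hφ⟩ : ∃ φ : Occ ω → ℝ, φ = fun v => ∑ i, a i * (v.1 i : ℝ) - χ v := ⟨_, rfl⟩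
  have hgrad : ∀ x, Reach (nxO ω hω) ⟨0, h0⟩ x → ∀ e, grad (nxO ω hω) φ x e = m x e := by
    intro x hx e
    have e1 := hχ x e hx
    have e2 : ∑ i, a i * ((nxO ω hω x e).1 i : ℝ) = ∑ i, a i * (x.1 i : ℝ) +
        (∑ i, a i * (dirVec e i : ℝ)) * (gap ω x.1 e : ℝ) := by
      rw [Finset.sum_mul, ← Finset.sum_add_distrib]
      refine Finset.sum_congr rfl fun i _ => ?_
      have : (nxO ω hω x e).1 i = x.1 i + (gap ω x.1 e : ℤ) * dirVec e i := by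
        simp [nxO, nextPt]
      rw [this]
      push_cast
      ring
    unfold grad at e1 ⊢
    simp only [hφ]
    rw [e2]
    linarith
  obtain ⟨c1, c2, c3, c4, c5⟩ := hCONG (nxO ω hω) {x | Reach (nxO ω hω) ⟨0, h0⟩ x}
    (fun x hx e => Reach.step x e hx)
  obtain ⟨ev1, ev2⟩ := hEVF (nxO ω hω)
  have hM := hMART (nxO ω hω) ⟨0, h0⟩ m (fun x _ => hm x) σ2 K hσ2 hVf h H G hH hG h1 h2
  have hφ0 : φ ⟨0, h0⟩ = 0 := by
    simp [hφ, hχ0]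
  have k1 : ∀ n : ℕ, EV (nxO ω hω) (fun y => Complex.exp (Complex.I *
      (((√(n : ℝ))⁻¹ * φ y : ℝ) : ℂ))) n ⟨0, h0⟩ = CF (nxO ω hω) m ((√(n : ℝ))⁻¹) n ⟨0, h0⟩ := by
    intro n
    rw [ev1 φ _ n ⟨0, h0⟩, hφ0, mul_zero, Complex.ofReal_zero, mul_zero, Complex.exp_zero, one_mul]
    exact c5 _ _ (fun x hx e => hgrad x hx e) _ _ ⟨0, h0⟩ Reach.refl
  have k2 : ∀ n : ℕ, ‖EV (nxO ω hω) (fun y => Complex.exp (Complex.I *
        (((√(n : ℝ))⁻¹ * ∑ i, a i * (y.1 i : ℝ) : ℝ) : ℂ))) n ⟨0, h0⟩ -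
      CF (nxO ω hω) m ((√(n : ℝ))⁻¹) n ⟨0, h0⟩‖ ≤
      PRn (nxO ω hω) (fun y => |χ y|) n ⟨0, h0⟩ / √n := by
    intro n
    rw [← k1 n]
    refine (ev2 _ _ n _).trans ?_
    have hs : 0 ≤ (√(n : ℝ))⁻¹ := by positivity
    refine (c1 _ (fun y => (√(n : ℝ))⁻¹ * |χ y| + 0 * |χ y|) (fun y _ => ?_) n ⟨0, h0⟩
      Reach.refl).trans (le_of_eq ?_)
    · refine (exp_lip _ _).trans (le_of_eq ?_)
      rw [← mul_sub, abs_mul, abs_of_nonneg hs]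
      simp only [hφ, sub_sub_cancel]
      ring
    · rw [c3]
      ring
  have k3 : Tendsto (fun n : ℕ => EV (nxO ω hω) (fun y => Complex.exp (Complex.I *
        (((√(n : ℝ))⁻¹ * ∑ i, a i * (y.1 i : ℝ) : ℝ) : ℂ))) n ⟨0, h0⟩ -
      CF (nxO ω hω) m ((√(n : ℝ))⁻¹) n ⟨0, h0⟩) atTop (𝓝 0) :=
    squeeze_zero_norm k2 hlim
  have k4 := k3.add hM
  simp only [sub_add_cancel, zero_add] at k4
  refine k4.congr fun n => ?_
  exact ((hLNK d ω hω n ⟨0, h0⟩).2 (fun v => Complex.exp (Complex.I *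
    (((√(n : ℝ))⁻¹ * ∑ i, a i * (v i : ℝ) : ℝ) : ℂ)))).symm

end Pool.Agent.Helper85.PC.DLT
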